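import Pool.Agent.KGC.StmtsM

/-!
# Block COEF, part MOD, row M_PLB: the integrals `pl`
-/

namespace Pool.Agent.KGC.H19

open MeasureTheory Set Filter Pool.Agent.KG Pool.Agent.KGC
open scoped ContDiff Topology Real

theorem gg_self (l : ℕ) (μ r : ℝ) : gg l μ r r = uu l μ r * vv l μ r := by
  unfold gg
  rw [min_self, max_self]

theorem gg_int (huuf : UufStmt) (hvvf : VvfStmt) (hwwb : WwbStmt) (l m : ℕ) (μ : ℝ)
    (hμ : 0 ≤ μ) :
    IntervalIntegrable (fun r => gg l μ r r * r ^ (2 * m + 1)) volume 0 1 := by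
  rw [intervalIntegrable_iff_integrableOn_Ioc_of_le zero_le_one]
  have hU := (huuf l μ hμ).2.2.2
  have hV := (hvvf l μ hμ).2
  have hW := (hwwb l μ hμ).1
  have hc : ContinuousOn (fun r => gg l μ r r * r ^ (2 * m + 1)) (Ioc 0 1) := by
    intro r hr
    have h1 : ContinuousAt (fun r => uu l μ r * vv l μ r * r ^ (2 * m + 1)) r :=
      (((hU r hr.1).1.continuousAt).mul (hV r hr.1).1.continuousAt).mul
        (continuousAt_id.pow (2 * m + 1))
    refine ContinuousAt.continuousWithinAt ?_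
    simpa only [gg_self] using h1
  refine Integrable.of_bound (hc.aestronglyMeasurable measurableSet_Ioc) 1 ?_
  refine (ae_restrict_iff' measurableSet_Ioc).2 (Eventually.of_forall fun r hr => ?_)
  have hr0 : 0 < r := hr.1
  have hv := (hW r hr.1 hr.2).1
  have hu := (hU r hr.1).2.2.1
  have huv := (hW r hr.1 hr.2).2.1
  have hp : 0 ≤ r ^ (2 * m) := pow_nonneg hr0.le _
  rw [gg_self, Real.norm_eq_abs, abs_of_nonneg (mul_nonneg (mul_nonneg hu.le hv)
    (pow_nonneg hr0.le _))]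
  calc uu l μ r * vv l μ r * r ^ (2 * m + 1) = uu l μ r * vv l μ r * r * r ^ (2 * m) := by ring
    _ ≤ 1 / r * r * r ^ (2 * m) :=
        mul_le_mul_of_nonneg_right (mul_le_mul_of_nonneg_right huv hr0.le) hp
    _ = r ^ (2 * m) := by rw [one_div, inv_mul_cancel₀ hr0.ne', one_mul]
    _ ≤ 1 := pow_le_one₀ hr0.le hr.2

theorem m_plb (huuf : UufStmt) (hvvf : VvfStmt) (hwwb : WwbStmt) : PlbStmt := by
  intro l m μ hμ
  refine ⟨gg_int huuf hvvf hwwb l m μ hμ, fun hl => ?_⟩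
  have h0 := gg_int huuf hvvf hwwb l m 0 le_rfl
  have h1 := gg_int huuf hvvf hwwb l m μ hμ
  unfold pl
  rw [← intervalIntegral.integral_sub h0 h1]
  have h2 : ∀ r ∈ Set.uIoc (0 : ℝ) 1,
      ‖gg l 0 r r * r ^ (2 * m + 1) - gg l μ r r * r ^ (2 * m + 1)‖ ≤
        μ / (4 * l * ((l : ℝ) + 1)) := by
    intro r hr
    rw [uIoc_of_le zero_le_one] at hr
    have hW := ((hwwb l μ hμ).1 r hr.1 hr.2).2.2 hl
    rw [gg_self, gg_self, ← sub_mul, Real.norm_eq_abs, abs_mul,
      abs_of_nonneg (pow_nonneg hr.1.le (2 * m + 1))]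
    calc _ ≤ |uu l 0 r * vv l 0 r - uu l μ r * vv l μ r| * 1 :=
          mul_le_mul_of_nonneg_left (pow_le_one₀ hr.1.le hr.2) (abs_nonneg _)
      _ ≤ _ := by rw [mul_one]; exact hW.2
  have h3 := intervalIntegral.norm_integral_le_of_norm_le_const h2
  rw [sub_zero, abs_one, mul_one, Real.norm_eq_abs] at h3
  exact h3

end Pool.Agent.KGC.H19
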